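import Pool.Agent.R327.OR.Near

/-! Near-invariant sets are uniformly almost independent of any fixed set. -/

set_option autoImplicit false
open MeasureTheory Filter Topology
open scoped RealInnerProductSpace InnerProduct

namespace Pool.Agent.R327.OR

section Hilbert

variable {E : Type*} [NormedAddCommGroup E] [InnerProductSpace ℝ E] [CompleteSpace E]

lemma inner_pow_isom (U : E →L[ℝ] E) (hU : ∀ x, ‖U x‖ = ‖x‖) (x y : E) :
    inner ℝ (U x) (U y) = inner ℝ x y := by
  have h1 := real_inner_eq_norm_add_mul_self_sub_norm_mul_self_sub_norm_mul_self_div_two (U x) (U y)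
  have h2 := real_inner_eq_norm_add_mul_self_sub_norm_mul_self_sub_norm_mul_self_div_two x y
  rw [h1, h2, ← map_add, hU, hU, hU]

lemma norm_iterate_isom (U : E →L[ℝ] E) (hU : ∀ x, ‖U x‖ = ‖x‖) (n : ℕ) (x : E) :
    ‖(U^[n]) x‖ = ‖x‖ := by
  induction n with
  | zero => rfl
  | succ n ih => rw [Function.iterate_succ_apply', hU, ih]

lemma inner_iterate_isom (U : E →L[ℝ] E) (hU : ∀ x, ‖U x‖ = ‖x‖) (n : ℕ) (x y : E) :
    inner ℝ ((U^[n]) x) ((U^[n]) y) = inner ℝ x y := by
  induction n with
  | zero => rfl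
  | succ n ih => rw [Function.iterate_succ_apply', Function.iterate_succ_apply',
      inner_pow_isom U hU, ih]

lemma iterate_sub_isom (U : E →L[ℝ] E) (n : ℕ) (x y : E) :
    (U^[n]) (x - y) = (U^[n]) x - (U^[n]) y := by
  induction n with
  | zero => rfl
  | succ n ih => rw [Function.iterate_succ_apply', Function.iterate_succ_apply',
      Function.iterate_succ_apply', ih, map_sub]

lemma mem_closure_left (U : E →L[ℝ] E) (u : E) (hu : ∀ w, U w = w → inner ℝ u w = 0) :
    u ∈ ((ContinuousLinearMap.id ℝ E - ContinuousLinearMap.adjoint U).range).topologicalClosure := by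
  rw [← Submodule.orthogonal_orthogonal_eq_closure, ContinuousLinearMap.orthogonal_range]
  rw [Submodule.mem_orthogonal]
  intro w hw
  have hw' : U w = w := by
    have : (ContinuousLinearMap.adjoint (ContinuousLinearMap.id ℝ E - ContinuousLinearMap.adjoint U)) w
        = 0 := hw
    rw [map_sub, ContinuousLinearMap.adjoint_adjoint, ContinuousLinearMap.adjoint_id] at this
    simp only [ContinuousLinearMap.sub_apply, ContinuousLinearMap.id_apply] at this
    exact (sub_eq_zero.1 this).symm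
  rw [real_inner_comm]
  exact hu w hw'

lemma mem_closure_right (U : E →L[ℝ] E) (hU : ∀ x, ‖U x‖ = ‖x‖) (u : E)
    (hu : ∀ w, U w = w → inner ℝ u w = 0) :
    u ∈ ((ContinuousLinearMap.id ℝ E - U).range).topologicalClosure := by
  rw [← Submodule.orthogonal_orthogonal_eq_closure, ContinuousLinearMap.orthogonal_range]
  rw [Submodule.mem_orthogonal]
  intro w hw
  have hw' : ContinuousLinearMap.adjoint U w = w := by
    have : (ContinuousLinearMap.adjoint (ContinuousLinearMap.id ℝ E - U)) w = 0 := hw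
    rw [map_sub, ContinuousLinearMap.adjoint_id] at this
    simp only [ContinuousLinearMap.sub_apply, ContinuousLinearMap.id_apply] at this
    exact (sub_eq_zero.1 this).symm
  have hw2 : U w = w := by
    have h1 : ‖U w - w‖ ^ 2 = ‖U w‖ ^ 2 - 2 * inner ℝ (U w) w + ‖w‖ ^ 2 := norm_sub_sq_real _ _
    have h2 : inner ℝ (U w) w = inner ℝ w (ContinuousLinearMap.adjoint U w) := by
      rw [ContinuousLinearMap.adjoint_inner_right]
    rw [h2, hw', hU, real_inner_self_eq_norm_sq] at h1
    have h3 : ‖U w - w‖ ^ 2 = 0 := by rw [h1]; ring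
    have h4 : ‖U w - w‖ = 0 := by
      rcases pow_eq_zero_iff (two_ne_zero) |>.1 h3 with h
      exact h
    exact sub_eq_zero.1 (norm_eq_zero.1 h4)
  rw [real_inner_comm]
  exact hu w hw2

/-- Vectors almost fixed by an isometry are almost orthogonal, uniformly along the orbit,
to any vector orthogonal to the fixed vectors. -/
lemma cross_abstract (U : E →L[ℝ] E) (hU : ∀ x, ‖U x‖ = ‖x‖) (u : E)
    (hu : ∀ w, U w = w → inner ℝ u w = 0) {ε : ℝ} (hε : 0 < ε) :
    ∃ δ > 0, ∀ w : E, ‖w‖ ≤ 1 → ‖U w - w‖ ≤ δ → ∀ n : ℕ,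
      |inner ℝ u ((U^[n]) w)| ≤ ε ∧ |inner ℝ w ((U^[n]) u)| ≤ ε := by
  have h1 := mem_closure_left U u hu
  have h2 := mem_closure_right U hU u hu
  rw [← SetLike.mem_coe, Submodule.topologicalClosure_coe, Metric.mem_closure_iff] at h1 h2
  obtain ⟨b1, ⟨a1, rfl⟩, hd1⟩ := h1 (ε / 2) (by positivity)
  obtain ⟨b2, ⟨a2, rfl⟩, hd2⟩ := h2 (ε / 2) (by positivity)
  refine ⟨ε / (2 * (‖a1‖ + ‖a2‖ + 1)), by positivity, ?_⟩
  intro w hw hUw n
  have key : ∀ a : E, ‖a‖ ≤ ‖a1‖ + ‖a2‖ → ‖a‖ * ‖U w - w‖ ≤ ε / 2 := by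
    intro a ha
    calc ‖a‖ * ‖U w - w‖ ≤ (‖a1‖ + ‖a2‖ + 1) * (ε / (2 * (‖a1‖ + ‖a2‖ + 1))) := by
          apply mul_le_mul _ hUw (norm_nonneg _) (by positivity)
          linarith
      _ = ε / 2 := by
          have : ‖a1‖ + ‖a2‖ + 1 ≠ 0 := by positivity
          field_simp
  constructor
  · set b : E := (ContinuousLinearMap.id ℝ E - ContinuousLinearMap.adjoint U) a1 with hb
    have hd1' : ‖u - b‖ < ε / 2 := by rw [← dist_eq_norm]; exact hd1
    have hsplit : inner ℝ u ((U^[n]) w) = inner ℝ (u - b) ((U^[n]) w) + inner ℝ b ((U^[n]) w) := by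
      rw [← inner_add_left]; congr 1; abel
    have hb2 : inner ℝ b ((U^[n]) w) = - inner ℝ a1 ((U^[n]) (U w - w)) := by
      rw [hb]
      simp only [ContinuousLinearMap.sub_apply, ContinuousLinearMap.id_apply]
      rw [inner_sub_left, ContinuousLinearMap.adjoint_inner_left, iterate_sub_isom,
        inner_sub_right, ← Function.iterate_succ_apply, Function.iterate_succ_apply']
      ring
    have h3 : |inner ℝ (u - b) ((U^[n]) w)| ≤ ε / 2 := by
      calc |inner ℝ (u - b) ((U^[n]) w)| ≤ ‖u - b‖ * ‖(U^[n]) w‖ := abs_real_inner_le_norm _ _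
        _ ≤ (ε / 2) * 1 := by
            rw [norm_iterate_isom U hU]
            exact mul_le_mul hd1'.le hw (norm_nonneg _) (by positivity)
        _ = ε / 2 := by ring
    have h4 : |inner ℝ b ((U^[n]) w)| ≤ ε / 2 := by
      rw [hb2, abs_neg]
      calc |inner ℝ a1 ((U^[n]) (U w - w))| ≤ ‖a1‖ * ‖(U^[n]) (U w - w)‖ :=
            abs_real_inner_le_norm _ _
        _ = ‖a1‖ * ‖U w - w‖ := by rw [norm_iterate_isom U hU]
        _ ≤ ε / 2 := key a1 (by linarith [norm_nonneg a2])
    rw [hsplit]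
    calc _ ≤ |inner ℝ (u - b) ((U^[n]) w)| + |inner ℝ b ((U^[n]) w)| := abs_add_le _ _
      _ ≤ ε := by linarith
  · set b : E := (ContinuousLinearMap.id ℝ E - U) a2 with hb
    have hd1' : ‖u - b‖ < ε / 2 := by rw [← dist_eq_norm]; exact hd2
    have hsplit : inner ℝ w ((U^[n]) u) = inner ℝ w ((U^[n]) (u - b)) + inner ℝ w ((U^[n]) b) := by
      rw [← inner_add_right, iterate_sub_isom]; congr 1; abel
    have hb2 : inner ℝ w ((U^[n]) b) = inner ℝ (U w - w) ((U^[n + 1]) a2) := by
      rw [hb]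
      simp only [ContinuousLinearMap.sub_apply, ContinuousLinearMap.id_apply]
      rw [iterate_sub_isom, inner_sub_right, inner_sub_left, Function.iterate_succ_apply']
      rw [inner_pow_isom U hU, ← Function.iterate_succ_apply, Function.iterate_succ_apply']
    have h3 : |inner ℝ w ((U^[n]) (u - b))| ≤ ε / 2 := by
      calc |inner ℝ w ((U^[n]) (u - b))| ≤ ‖w‖ * ‖(U^[n]) (u - b)‖ := abs_real_inner_le_norm _ _
        _ ≤ 1 * (ε / 2) := by
            rw [norm_iterate_isom U hU]
            exact mul_le_mul hw hd1'.le (norm_nonneg _) (by positivity)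
        _ = ε / 2 := by ring
    have h4 : |inner ℝ w ((U^[n]) b)| ≤ ε / 2 := by
      rw [hb2]
      calc |inner ℝ (U w - w) ((U^[n + 1]) a2)| ≤ ‖U w - w‖ * ‖(U^[n + 1]) a2‖ :=
            abs_real_inner_le_norm _ _
        _ = ‖a2‖ * ‖U w - w‖ := by rw [norm_iterate_isom U hU, mul_comm]
        _ ≤ ε / 2 := key a2 (by linarith [norm_nonneg a1])
    rw [hsplit]
    calc _ ≤ |inner ℝ w ((U^[n]) (u - b))| + |inner ℝ w ((U^[n]) b)| := abs_add_le _ _
      _ ≤ ε := by linarith

end Hilbert

variable {X : Type*} [MeasurableSpace X] {μ : Measure X} [IsProbabilityMeasure μ] {T : X → X}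

/-- The covariance of `A` and `T^{-n} B`. -/
noncomputable def cov (μ : Measure X) (T : X → X) (n : ℕ) (A B : Set X) : ℝ :=
  μ.real (A ∩ T^[n] ⁻¹' B) - μ.real A * μ.real B

lemma ergodic_of_mix (hmix : Mix μ T) (hT : MeasurePreserving T μ μ) : Ergodic T μ := by
  refine ⟨hT, ⟨?_⟩⟩
  intro s hs hinv
  have hit : ∀ n : ℕ, T^[n] ⁻¹' s = s := by
    intro n
    induction n with
    | zero => rfl
    | succ n ih =>
      rw [Function.iterate_succ, Set.preimage_comp, ih, hinv]
  have h := hmix s s hs hs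
  simp only [hit, Set.inter_self] at h
  have h2 := tendsto_nhds_unique h tendsto_const_nhds
  have h3 : μ.real s * (μ.real s - 1) = 0 := by linarith
  rw [Filter.eventuallyConst_set']
  rcases mul_eq_zero.1 h3 with h4 | h4
  · left
    rw [ae_eq_empty]
    exact (measureReal_eq_zero_iff).1 h4
  · right
    rw [ae_eq_univ]
    have h5 : μ.real s = 1 := by linarith
    have h6 := probReal_compl_eq_one_sub (μ := μ) hs
    rw [h5, sub_self] at h6
    exact (measureReal_eq_zero_iff).1 h6

open Classical in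
lemma cross (hmix : Mix μ T) (hT : MeasurePreserving T μ μ) {H : Set X} (hH : MeasurableSet H)
    {ε : ℝ} (hε : 0 < ε) :
    ∃ δ > 0, ∀ G : Set X, MeasurableSet G → μ.real (symmDiff G (T ⁻¹' G)) ≤ δ → ∀ n : ℕ,
      |cov μ T n H G| ≤ ε ∧ |cov μ T n G H| ≤ ε := by
  set U : Lp ℝ 2 μ →L[ℝ] Lp ℝ 2 μ :=
    (Lp.compMeasurePreservingₗᵢ ℝ T hT).toContinuousLinearMap with hUdef
  have hU : ∀ x, ‖U x‖ = ‖x‖ := fun x => (Lp.compMeasurePreservingₗᵢ ℝ T hT).norm_map x
  have hUapp : ∀ x, U x = Lp.compMeasurePreserving T hT x := fun x => rfl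
  set one : Lp ℝ 2 μ := indicatorConstLp 2 MeasurableSet.univ (measure_ne_top μ _) (1:ℝ) with hone
  let ind : (S : Set X) → MeasurableSet S → Lp ℝ 2 μ := fun S hS =>
    indicatorConstLp 2 hS (measure_ne_top μ _) (1:ℝ)
  have hind : ∀ (S : Set X) (hS : MeasurableSet S) (n : ℕ),
      (U^[n]) (ind S hS) = ind (T^[n] ⁻¹' S) ((hT.measurable.iterate n) hS) := by
    intro S hS n
    induction n with
    | zero => rfl
    | succ n ih =>
      rw [Function.iterate_succ_apply', ih, hUapp]
      simp only [ind]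
      rw [Lp.indicatorConstLp_compMeasurePreserving]
      rfl
  have hinner : ∀ (S S' : Set X) (hS : MeasurableSet S) (hS' : MeasurableSet S'),
      inner ℝ (ind S hS) (ind S' hS') = μ.real (S ∩ S') := by
    intro S S' hS hS'
    exact L2.real_inner_indicatorConstLp_one_indicatorConstLp_one hS hS'
  have hone' : one = ind Set.univ MeasurableSet.univ := rfl
  set u : Lp ℝ 2 μ := ind H hH - (μ.real H) • one with hu
  have herg := ergodic_of_mix hmix hT
  have hfix : ∀ w : Lp ℝ 2 μ, U w = w → inner ℝ u w = 0 := by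
    intro w hw
    obtain ⟨c, hc⟩ : ∃ c, (w : X → ℝ) =ᵐ[μ] Function.const X c := by
      apply herg.quasiErgodic.ae_eq_const_of_ae_eq_comp_ae (Lp.aestronglyMeasurable w)
      have h1 := Lp.coeFn_compMeasurePreserving w hT
      rw [← hUapp, hw] at h1
      exact h1.symm
    have hw2 : w = c • one := by
      apply Lp.ext
      refine hc.trans ?_
      have h2 := Lp.coeFn_smul c one
      have h3 : (one : X → ℝ) =ᵐ[μ] Set.indicator Set.univ (fun _ => (1:ℝ)) :=
        indicatorConstLp_coeFn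
      filter_upwards [h2, h3] with x h2x h3x
      rw [h2x, Pi.smul_apply, h3x]
      simp
    rw [hw2, hu, inner_smul_right, inner_sub_left, real_inner_smul_left, hone', hinner, hinner]
    simp
  obtain ⟨δ, hδ, hδ'⟩ := cross_abstract U hU u hfix hε
  refine ⟨δ ^ 2, by positivity, ?_⟩
  intro G hG hGs n
  have hnorm : ∀ (S : Set X) (hS : MeasurableSet S), ‖ind S hS‖ ^ 2 = μ.real S := by
    intro S hS
    rw [← real_inner_self_eq_norm_sq, hinner, Set.inter_self]
  have hn1 : ‖ind G hG‖ ≤ 1 := by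
    have := hnorm G hG
    have h1 : μ.real G ≤ 1 := measureReal_le_one
    nlinarith [norm_nonneg (ind G hG)]
  have hpre : μ.real (T ⁻¹' G) = μ.real G := by
    rw [Measure.real, Measure.real, hT.measure_preimage hG.nullMeasurableSet]
  have hn2 : ‖U (ind G hG) - ind G hG‖ ≤ δ := by
    have h1 : U (ind G hG) = ind (T ⁻¹' G) (hT.measurable hG) := hind G hG 1
    have h2 : ‖U (ind G hG) - ind G hG‖ ^ 2 = μ.real (symmDiff G (T ⁻¹' G)) := by
      rw [h1, norm_sub_sq_real, hnorm, hnorm, hinner, hpre]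
      have h3 : μ.real (symmDiff G (T ⁻¹' G)) = μ.real (G \ T ⁻¹' G) + μ.real (T ⁻¹' G \ G) := by
        rw [Set.symmDiff_def]
        exact measureReal_union (disjoint_sdiff_sdiff) ((hT.measurable hG).diff hG)
      have h4 := measureReal_diff_add_inter (μ := μ) (s := G) (t := T ⁻¹' G) (hT.measurable hG)
      have h5 := measureReal_diff_add_inter (μ := μ) (s := T ⁻¹' G) (t := G) hG
      rw [Set.inter_comm] at h4
      rw [hpre] at h5
      rw [h3]
      linarith
    have h3 : ‖U (ind G hG) - ind G hG‖ ^ 2 ≤ δ ^ 2 := h2.trans_le hGs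
    exact (pow_le_pow_iff_left₀ (norm_nonneg _) hδ.le two_ne_zero).1 h3
  obtain ⟨h1, h2⟩ := hδ' (ind G hG) hn1 hn2 n
  have hUone : (U^[n]) one = one := by
    rw [hone', hind]
    rfl
  have hpren : μ.real (T^[n] ⁻¹' G) = μ.real G := by
    rw [Measure.real, Measure.real, (hT.iterate n).measure_preimage hG.nullMeasurableSet]
  constructor
  · convert h1 using 2
    rw [hu, inner_sub_left, real_inner_smul_left, hind, hone', hinner, hinner, Set.univ_inter, hpren]
    rfl
  · convert h2 using 2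
    rw [hu, iterate_sub_isom]
    have h5 : (U^[n]) (μ.real H • one) = μ.real H • one := by
      have : ∀ m : ℕ, (U^[m]) (μ.real H • one) = μ.real H • (U^[m]) one := by
        intro m
        induction m with
        | zero => rfl
        | succ m ih => rw [Function.iterate_succ_apply', ih, map_smul, Function.iterate_succ_apply']
      rw [this, hUone]
    rw [h5, inner_sub_right, real_inner_smul_right, hind, hone', hinner, hinner, Set.inter_univ]
    rw [cov]
    ring

end Pool.Agent.R327.OR
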