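import Pool.Agent.R327.OR.Seq

/-! Bounded over-recurrent functions in mixing systems. -/

set_option autoImplicit false
open MeasureTheory Filter Topology

namespace Pool.Agent.R327.OR

/-- The numerical heart. -/
lemma numeric {r v : ℝ} (hr0 : 0 < r) (hr1 : r < 1) (hv : 0 ≤ v)
    (hrv : 2 < v * (r ^ 2 / (1 - r ^ 2)))
    (c : ℕ → ℕ → ℝ) (i : ℕ)
    (h1 : ∀ j l, j ≠ l → |c j l| ≤ (1 - r) ^ 2 * (r ^ 2) ^ i)
    (h2 : ∀ j, j < i → |c j j| ≤ (1 - r) ^ 2 * (r ^ 2) ^ i)
    (h3 : -1 ≤ c i i) (h4 : ∀ j, i < j → v ≤ c j j) {S : ℝ}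
    (hS : Tendsto (fun J => ∑ j ∈ Finset.range J, ∑ l ∈ Finset.range J, r ^ j * r ^ l * c j l)
      atTop (𝓝 S)) : 0 < S := by
  set θ := (1 - r) ^ 2 * (r ^ 2) ^ i with hθ
  have hθ0 : 0 ≤ θ := by positivity
  set dd : ℕ → ℝ := fun j => if j < i then 0 else if j = i then -(r ^ 2) ^ i else v * (r ^ 2) ^ j
    with hdd
  have hterm : ∀ j l, -θ * (r ^ j * r ^ l) + (if j = l then dd j else 0) ≤ r ^ j * r ^ l * c j l := by
    intro j l
    have hp : 0 < r ^ j * r ^ l := by positivity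
    by_cases hjl : j = l
    · subst hjl
      simp only [if_true]
      rcases lt_trichotomy j i with h | h | h
      · have : dd j = 0 := by simp [hdd, h]
        rw [this]
        have := (abs_le.1 (h2 j h)).1
        nlinarith
      · have : dd j = -(r ^ 2) ^ i := by simp [hdd, h]
        rw [this, h]
        have e : r ^ i * r ^ i = (r ^ 2) ^ i := by rw [← pow_add, ← pow_mul]; congr 1; ring
        rw [e]
        have : 0 ≤ (r ^ 2) ^ i := by positivity
        nlinarith
      · have : dd j = v * (r ^ 2) ^ j := by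
          simp only [hdd]
          rw [if_neg (by omega), if_neg (by omega)]
        rw [this]
        have e : r ^ j * r ^ j = (r ^ 2) ^ j := by rw [← pow_add, ← pow_mul]; congr 1; ring
        rw [e]
        have h5 : 0 ≤ (r ^ 2) ^ j := by positivity
        have := h4 j h
        nlinarith
    · rw [if_neg hjl, add_zero]
      have := (abs_le.1 (h1 j l hjl)).1
      nlinarith
  have hgeo : ∀ J, ∑ j ∈ Finset.range J, r ^ j ≤ (1 - r)⁻¹ := by
    intro J
    have := (summable_geometric_of_lt_one hr0.le hr1).sum_le_tsum (Finset.range J)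
      (fun _ _ => by positivity)
    rwa [tsum_geometric_of_lt_one hr0.le hr1] at this
  have hlow : ∀ J, -(r ^ 2) ^ i - (r ^ 2) ^ i + v * (r ^ 2) ^ (i + 1) *
      ∑ m ∈ Finset.range J, (r ^ 2) ^ m ≤
      ∑ j ∈ Finset.range (i + 1 + J), ∑ l ∈ Finset.range (i + 1 + J), r ^ j * r ^ l * c j l := by
    intro J
    have e1 : ∑ j ∈ Finset.range (i + 1 + J), ∑ l ∈ Finset.range (i + 1 + J),
        (-θ * (r ^ j * r ^ l) + (if j = l then dd j else 0)) ≤
        ∑ j ∈ Finset.range (i + 1 + J), ∑ l ∈ Finset.range (i + 1 + J), r ^ j * r ^ l * c j l :=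
      Finset.sum_le_sum fun j _ => Finset.sum_le_sum fun l _ => hterm j l
    refine le_trans ?_ e1
    have e2 : ∑ j ∈ Finset.range (i + 1 + J), ∑ l ∈ Finset.range (i + 1 + J),
        (-θ * (r ^ j * r ^ l) + (if j = l then dd j else 0)) =
        -θ * ((∑ j ∈ Finset.range (i + 1 + J), r ^ j) * (∑ j ∈ Finset.range (i + 1 + J), r ^ j))
        + ∑ j ∈ Finset.range (i + 1 + J), dd j := by
      rw [Finset.sum_mul_sum, Finset.mul_sum, ← Finset.sum_add_distrib]
      refine Finset.sum_congr rfl fun j hj => ?_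
      rw [Finset.sum_add_distrib, Finset.mul_sum]
      congr 1
      rw [Finset.sum_ite_eq]
      simp only [hj, if_true]
    rw [e2]
    have e3 : (∑ j ∈ Finset.range (i + 1 + J), r ^ j) * (∑ j ∈ Finset.range (i + 1 + J), r ^ j)
        ≤ (1 - r)⁻¹ * (1 - r)⁻¹ := by
      have h0 : 0 ≤ ∑ j ∈ Finset.range (i + 1 + J), r ^ j :=
        Finset.sum_nonneg fun _ _ => by positivity
      exact mul_le_mul (hgeo _) (hgeo _) h0 (h0.trans (hgeo _))
    have e4 : θ * ((1 - r)⁻¹ * (1 - r)⁻¹) = (r ^ 2) ^ i := by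
      have : 1 - r ≠ 0 := by linarith
      rw [hθ]
      field_simp
    have e5 : θ * ((∑ j ∈ Finset.range (i + 1 + J), r ^ j) *
        (∑ j ∈ Finset.range (i + 1 + J), r ^ j)) ≤ (r ^ 2) ^ i := by
      rw [← e4]
      exact mul_le_mul_of_nonneg_left e3 hθ0
    have e6 : ∑ j ∈ Finset.range (i + 1 + J), dd j = -(r ^ 2) ^ i + v * (r ^ 2) ^ (i + 1) *
        ∑ m ∈ Finset.range J, (r ^ 2) ^ m := by
      rw [Finset.sum_range_add, Finset.sum_range_succ]
      have e7 : ∑ x ∈ Finset.range i, dd x = 0 := by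
        apply Finset.sum_eq_zero
        intro x hx
        have := Finset.mem_range.1 hx
        simp [hdd, this]
      have e8 : dd i = -(r ^ 2) ^ i := by simp [hdd]
      have e9 : ∀ x, dd (i + 1 + x) = v * (r ^ 2) ^ (i + 1) * (r ^ 2) ^ x := by
        intro x
        simp only [hdd]
        rw [if_neg (by omega), if_neg (by omega), pow_add]
        ring
      rw [e7, e8, zero_add, Finset.mul_sum]
      congr 1
      exact Finset.sum_congr rfl fun x _ => e9 x
    rw [e6]
    linarith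
  have hr2 : r ^ 2 < 1 := by nlinarith
  have hr20 : 0 ≤ r ^ 2 := by positivity
  have hlimL : Tendsto (fun J => -(r ^ 2) ^ i - (r ^ 2) ^ i + v * (r ^ 2) ^ (i + 1) *
      ∑ m ∈ Finset.range J, (r ^ 2) ^ m) atTop
      (𝓝 (-(r ^ 2) ^ i - (r ^ 2) ^ i + v * (r ^ 2) ^ (i + 1) * (1 - r ^ 2)⁻¹)) := by
    have := (hasSum_geometric_of_lt_one hr20 hr2).tendsto_sum_nat
    exact (this.const_mul _).const_add _
  have hlimR : Tendsto (fun J => ∑ j ∈ Finset.range (i + 1 + J), ∑ l ∈ Finset.range (i + 1 + J),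
      r ^ j * r ^ l * c j l) atTop (𝓝 S) := by
    have : Tendsto (fun J : ℕ => i + 1 + J) atTop atTop := tendsto_atTop_mono (fun J => show J ≤ i + 1 + J by omega) tendsto_id
    exact hS.comp this
  have hle := le_of_tendsto_of_tendsto' hlimL hlimR hlow
  have hpos : 0 < -(r ^ 2) ^ i - (r ^ 2) ^ i + v * (r ^ 2) ^ (i + 1) * (1 - r ^ 2)⁻¹ := by
    have e : -(r ^ 2) ^ i - (r ^ 2) ^ i + v * (r ^ 2) ^ (i + 1) * (1 - r ^ 2)⁻¹ =
        (r ^ 2) ^ i * (v * (r ^ 2 / (1 - r ^ 2)) - 2) := by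
      rw [pow_succ, div_eq_mul_inv]; ring
    rw [e]
    apply mul_pos (by positivity)
    linarith
  linarith

variable {X : Type*} [MeasurableSpace X] {μ : Measure X} [IsProbabilityMeasure μ] {T : X → X}

/-- The candidate function. -/
noncomputable def ff (r : ℝ) (G : ℕ → Set X) (x : X) : ℝ :=
  ∑' j, r ^ j * (G j).indicator (fun _ => (1:ℝ)) x

noncomputable def fpart (r : ℝ) (G : ℕ → Set X) (J : ℕ) (x : X) : ℝ :=
  ∑ j ∈ Finset.range J, r ^ j * (G j).indicator (fun _ => (1:ℝ)) x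

lemma ind_nonneg (A : Set X) (x : X) : 0 ≤ A.indicator (fun _ => (1:ℝ)) x :=
  Set.indicator_nonneg (fun _ _ => zero_le_one) x

lemma ind_le_one (A : Set X) (x : X) : A.indicator (fun _ => (1:ℝ)) x ≤ 1 := by
  classical
  rw [Set.indicator_apply]
  split_ifs <;> norm_num

lemma summable_ff {r : ℝ} (hr0 : 0 < r) (hr1 : r < 1) (G : ℕ → Set X) (x : X) :
    Summable (fun j => r ^ j * (G j).indicator (fun _ => (1:ℝ)) x) := by
  refine Summable.of_nonneg_of_le (fun j => ?_) (fun j => ?_)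
    (summable_geometric_of_lt_one hr0.le hr1)
  · exact mul_nonneg (by positivity) (ind_nonneg _ _)
  · calc r ^ j * (G j).indicator (fun _ => (1:ℝ)) x ≤ r ^ j * 1 :=
        mul_le_mul_of_nonneg_left (ind_le_one _ _) (by positivity)
      _ = r ^ j := mul_one _

lemma tendsto_fpart {r : ℝ} (hr0 : 0 < r) (hr1 : r < 1) (G : ℕ → Set X) (x : X) :
    Tendsto (fun J => fpart r G J x) atTop (𝓝 (ff r G x)) :=
  (summable_ff hr0 hr1 G x).hasSum.tendsto_sum_nat

lemma fpart_nonneg {r : ℝ} (hr0 : 0 < r) (G : ℕ → Set X) (J : ℕ) (x : X) :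
    0 ≤ fpart r G J x :=
  Finset.sum_nonneg fun j _ => mul_nonneg (by positivity) (ind_nonneg _ _)

lemma fpart_le {r : ℝ} (hr0 : 0 < r) (hr1 : r < 1) (G : ℕ → Set X) (J : ℕ) (x : X) :
    fpart r G J x ≤ (1 - r)⁻¹ := by
  have := (summable_geometric_of_lt_one hr0.le hr1).sum_le_tsum (Finset.range J)
      (fun _ _ => by positivity)
  rw [tsum_geometric_of_lt_one hr0.le hr1] at this
  refine le_trans (Finset.sum_le_sum fun j _ => ?_) this
  calc r ^ j * (G j).indicator (fun _ => (1:ℝ)) x ≤ r ^ j * 1 :=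
        mul_le_mul_of_nonneg_left (ind_le_one _ _) (by positivity)
      _ = r ^ j := mul_one _

lemma ff_nonneg {r : ℝ} (hr0 : 0 < r) (hr1 : r < 1) (G : ℕ → Set X) (x : X) : 0 ≤ ff r G x :=
  ge_of_tendsto' (tendsto_fpart hr0 hr1 G x) fun J => fpart_nonneg hr0 G J x

lemma ff_le {r : ℝ} (hr0 : 0 < r) (hr1 : r < 1) (G : ℕ → Set X) (x : X) :
    ff r G x ≤ (1 - r)⁻¹ :=
  le_of_tendsto' (tendsto_fpart hr0 hr1 G x) fun J => fpart_le hr0 hr1 G J x

lemma measurable_fpart (r : ℝ) {G : ℕ → Set X} (hG : ∀ j, MeasurableSet (G j)) (J : ℕ) :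
    Measurable (fpart r G J) := by
  apply Finset.measurable_fun_sum
  intro j _
  exact (measurable_const.indicator (hG j)).const_mul _

lemma measurable_ff {r : ℝ} (hr0 : 0 < r) (hr1 : r < 1) {G : ℕ → Set X}
    (hG : ∀ j, MeasurableSet (G j)) : Measurable (ff r G) :=
  measurable_of_tendsto_metrizable (fun J => measurable_fpart r hG J)
    (tendsto_pi_nhds.2 fun x => tendsto_fpart hr0 hr1 G x)

lemma integral_fpart (r : ℝ) {G : ℕ → Set X} (hG : ∀ j, MeasurableSet (G j)) (J : ℕ) :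
    ∫ x, fpart r G J x ∂μ = ∑ j ∈ Finset.range J, r ^ j * μ.real (G j) := by
  simp only [fpart]
  rw [integral_finsetSum]
  · refine Finset.sum_congr rfl fun j _ => ?_
    rw [integral_const_mul, integral_indicator_const _ (hG j)]
    simp
  · intro j _
    exact ((integrable_const (1:ℝ)).indicator (hG j)).const_mul _

lemma integral_fpart_mul (hT : MeasurePreserving T μ μ) (r : ℝ) {G : ℕ → Set X}
    (hG : ∀ j, MeasurableSet (G j)) (J n : ℕ) :
    ∫ x, fpart r G J x * fpart r G J (T^[n] x) ∂μ =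
      ∑ j ∈ Finset.range J, ∑ l ∈ Finset.range J, r ^ j * r ^ l * μ.real (G j ∩ T^[n] ⁻¹' G l) := by
  have e1 : ∀ x, fpart r G J x * fpart r G J (T^[n] x) =
      ∑ j ∈ Finset.range J, ∑ l ∈ Finset.range J,
        r ^ j * r ^ l * (G j ∩ T^[n] ⁻¹' G l).indicator (fun _ => (1:ℝ)) x := by
    intro x
    simp only [fpart]
    rw [Finset.sum_mul_sum]
    refine Finset.sum_congr rfl fun j _ => Finset.sum_congr rfl fun l _ => ?_
    have : (G j ∩ T^[n] ⁻¹' G l).indicator (fun _ => (1:ℝ)) x =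
        (G j).indicator (fun _ => (1:ℝ)) x * (G l).indicator (fun _ => (1:ℝ)) (T^[n] x) := by
      classical
      simp only [Set.indicator_apply, Set.mem_inter_iff, Set.mem_preimage]
      by_cases h1 : x ∈ G j <;> by_cases h2 : T^[n] x ∈ G l <;> simp [h1, h2]
    rw [this]
    ring
  simp only [e1]
  have hm : ∀ j l, MeasurableSet (G j ∩ T^[n] ⁻¹' G l) := fun j l =>
    (hG j).inter ((hT.measurable.iterate n) (hG l))
  rw [integral_finsetSum]
  · refine Finset.sum_congr rfl fun j _ => ?_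
    rw [integral_finsetSum]
    · refine Finset.sum_congr rfl fun l _ => ?_
      rw [integral_const_mul, integral_indicator_const _ (hm j l)]
      simp
    · intro l _
      exact ((integrable_const (1:ℝ)).indicator (hm j l)).const_mul _
  · intro j _
    apply integrable_finsetSum
    intro l _
    exact ((integrable_const (1:ℝ)).indicator (hm j l)).const_mul _

lemma tendsto_cov (hT : MeasurePreserving T μ μ) {r : ℝ} (hr0 : 0 < r) (hr1 : r < 1)
    {G : ℕ → Set X} (hG : ∀ j, MeasurableSet (G j)) (n : ℕ) :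
    Tendsto (fun J => ∑ j ∈ Finset.range J, ∑ l ∈ Finset.range J,
      r ^ j * r ^ l * cov μ T n (G j) (G l)) atTop
      (𝓝 ((∫ x, ff r G x * ff r G (T^[n] x) ∂μ) - (∫ x, ff r G x ∂μ) ^ 2)) := by
  have h1 : Tendsto (fun J => ∫ x, fpart r G J x ∂μ) atTop (𝓝 (∫ x, ff r G x ∂μ)) := by
    apply tendsto_integral_of_dominated_convergence (fun _ => (1 - r)⁻¹)
    · exact fun J => (measurable_fpart r hG J).aestronglyMeasurable
    · exact integrable_const _
    · intro J
      refine Eventually.of_forall fun x => ?_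
      rw [Real.norm_eq_abs, abs_of_nonneg (fpart_nonneg hr0 G J x)]
      exact fpart_le hr0 hr1 G J x
    · exact Eventually.of_forall fun x => tendsto_fpart hr0 hr1 G x
  have h2 : Tendsto (fun J => ∫ x, fpart r G J x * fpart r G J (T^[n] x) ∂μ) atTop
      (𝓝 (∫ x, ff r G x * ff r G (T^[n] x) ∂μ)) := by
    apply tendsto_integral_of_dominated_convergence (fun _ => (1 - r)⁻¹ * (1 - r)⁻¹)
    · exact fun J => ((measurable_fpart r hG J).mul
        ((measurable_fpart r hG J).comp (hT.measurable.iterate n))).aestronglyMeasurable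
    · exact integrable_const _
    · intro J
      refine Eventually.of_forall fun x => ?_
      rw [Real.norm_eq_abs, abs_of_nonneg (mul_nonneg (fpart_nonneg hr0 G J x)
        (fpart_nonneg hr0 G J _))]
      exact mul_le_mul (fpart_le hr0 hr1 G J x) (fpart_le hr0 hr1 G J _)
        (fpart_nonneg hr0 G J _) ((fpart_nonneg hr0 G J x).trans (fpart_le hr0 hr1 G J x))
    · exact Eventually.of_forall fun x =>
        (tendsto_fpart hr0 hr1 G x).mul (tendsto_fpart hr0 hr1 G _)
  have h3 := h2.sub (h1.pow 2)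
  refine h3.congr fun J => ?_
  rw [integral_fpart_mul hT r hG, integral_fpart r hG, pow_two, Finset.sum_mul_sum,
    ← Finset.sum_sub_distrib]
  refine Finset.sum_congr rfl fun j _ => ?_
  rw [← Finset.sum_sub_distrib]
  refine Finset.sum_congr rfl fun l _ => ?_
  rw [cov]
  ring

/-- Every nontrivial mixing system has a bounded strictly over-recurrent function. -/
theorem main (hmix : Mix μ T) (hT : MeasurePreserving T μ μ) {D : Set X}
    (hD : MeasurableSet D) (h0 : 0 < μ.real D) (h1 : μ.real D < 1) :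
    ∃ f : X → ℝ, Measurable f ∧ (∃ C, ∀ x, 0 ≤ f x ∧ f x ≤ C) ∧
      (∀ n : ℕ, (∫ x, f x ∂μ) ^ 2 < ∫ x, f x * f (T^[n] x) ∂μ) := by
  set v := μ.real D * (1 - μ.real D) / 2 with hv
  have hv0 : 0 < v := by
    have : 0 < μ.real D * (1 - μ.real D) := mul_pos h0 (by linarith)
    positivity
  obtain ⟨r, hr0, hr1, hrv⟩ : ∃ r : ℝ, 0 < r ∧ r < 1 ∧ 2 < v * (r ^ 2 / (1 - r ^ 2)) := by
    -- r = s with r ^ 2 = (1 + 3 / v) ... take r ^ 2 = 3 / (v + 3)
    have hq : 0 < 3 / (v + 3) := by positivity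
    have hq1 : 3 / (v + 3) < 1 := by rw [div_lt_one (by positivity)]; linarith
    refine ⟨Real.sqrt (3 / (v + 3)), Real.sqrt_pos.2 hq, ?_, ?_⟩
    · rw [Real.sqrt_lt' one_pos]; simpa using hq1
    · rw [Real.sq_sqrt hq.le]
      have e : v * (3 / (v + 3) / (1 - 3 / (v + 3))) = 3 := by
        have h5 : v + 3 ≠ 0 := by positivity
        have h6 : 1 - 3 / (v + 3) = v / (v + 3) := by field_simp; ring
        rw [h6]
        field_simp
      rw [e]; norm_num
  have hθ : ∀ n : ℕ, 0 < (1 - r) ^ 2 * (r ^ 2) ^ n := by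
    intro n
    have : 0 < 1 - r := by linarith
    positivity
  have hanti : Antitone (fun n : ℕ => (1 - r) ^ 2 * (r ^ 2) ^ n) := by
    intro a b hab
    apply mul_le_mul_of_nonneg_left _ (by positivity)
    apply pow_le_pow_of_le_one (by positivity) _ hab
    nlinarith
  obtain ⟨G, hG, hGi⟩ := exists_sets hmix hT hD h0 h1 (fun n : ℕ => (1 - r) ^ 2 * (r ^ 2) ^ n)
    hθ hanti
  refine ⟨ff r G, measurable_ff hr0 hr1 hG,
    ⟨(1 - r)⁻¹, fun x => ⟨ff_nonneg hr0 hr1 G x, ff_le hr0 hr1 G x⟩⟩, fun n => ?_⟩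
  obtain ⟨i, hi1, hi2, hi3⟩ := hGi n
  have := numeric hr0 hr1 hv0.le hrv (fun j l => cov μ T n (G j) (G l)) i hi1 hi2
    (cov_self_ge_neg_one n (G i)) hi3 (tendsto_cov hT hr0 hr1 hG n)
  linarith

end Pool.Agent.R327.OR
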