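import Mathlib

/-! Near-invariant sets in mixing systems (towers over small sets). -/

set_option autoImplicit false
open MeasureTheory Filter Topology

namespace Pool.Agent.R327.OR

variable {X : Type*} [MeasurableSpace X] {μ : Measure X} [IsProbabilityMeasure μ] {T : X → X}

/-- Mixing, in real form. -/
def Mix (μ : Measure X) (T : X → X) : Prop :=
  ∀ A B : Set X, MeasurableSet A → MeasurableSet B →
    Tendsto (fun n : ℕ => μ.real (A ∩ T^[n] ⁻¹' B)) atTop (𝓝 (μ.real A * μ.real B))

lemma exists_small_pow (hmix : Mix μ T) (hT : Measurable T) {D : Set X} (hD : MeasurableSet D)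
    (h0 : 0 < μ.real D) (h1 : μ.real D < 1) (k : ℕ) :
    ∃ A : Set X, MeasurableSet A ∧ 0 < μ.real A ∧ μ.real A ≤ ((1 + μ.real D) / 2) ^ k := by
  induction k with
  | zero => exact ⟨D, hD, h0, by simpa using h1.le⟩
  | succ k ih =>
    obtain ⟨A, hA, hA0, hA1⟩ := ih
    have hlim := hmix A D hA hD
    have hlo : 0 < μ.real A * μ.real D := mul_pos hA0 h0
    have hhi : μ.real A * μ.real D < μ.real A * ((1 + μ.real D) / 2) := by
      apply mul_lt_mul_of_pos_left _ hA0
      linarith
    have hev := (hlim.eventually (Ioo_mem_nhds hlo hhi)).exists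
    obtain ⟨n, hn⟩ := hev
    refine ⟨A ∩ T^[n] ⁻¹' D, hA.inter ((hT.iterate n) hD), hn.1, ?_⟩
    calc μ.real (A ∩ T^[n] ⁻¹' D) ≤ μ.real A * ((1 + μ.real D) / 2) := hn.2.le
      _ ≤ ((1 + μ.real D) / 2) ^ k * ((1 + μ.real D) / 2) := by
          apply mul_le_mul_of_nonneg_right hA1
          linarith
      _ = ((1 + μ.real D) / 2) ^ (k + 1) := by ring

lemma exists_small (hmix : Mix μ T) (hT : Measurable T) {D : Set X} (hD : MeasurableSet D)
    (h0 : 0 < μ.real D) (h1 : μ.real D < 1) {ε : ℝ} (hε : 0 < ε) :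
    ∃ A : Set X, MeasurableSet A ∧ 0 < μ.real A ∧ μ.real A ≤ ε := by
  have hr : (1 + μ.real D) / 2 < 1 := by linarith
  obtain ⟨k, hk⟩ := exists_pow_lt_of_lt_one hε hr
  obtain ⟨A, hA, hA0, hA1⟩ := exists_small_pow hmix hT hD h0 h1 k
  exact ⟨A, hA, hA0, hA1.trans hk.le⟩

/-- Sweep-out. -/
lemma measure_iUnion_preimage (hmix : Mix μ T) (hT : Measurable T) {A : Set X}
    (hA : MeasurableSet A) (h0 : 0 < μ.real A) :
    μ.real (⋃ t : ℕ, T^[t] ⁻¹' A) = 1 := by
  have hU : MeasurableSet (⋃ t : ℕ, T^[t] ⁻¹' A) :=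
    MeasurableSet.iUnion fun t => (hT.iterate t) hA
  have hlim := hmix (⋃ t : ℕ, T^[t] ⁻¹' A)ᶜ A hU.compl hA
  have hz : ∀ n : ℕ, μ.real ((⋃ t : ℕ, T^[t] ⁻¹' A)ᶜ ∩ T^[n] ⁻¹' A) = 0 := by
    intro n
    have : (⋃ t : ℕ, T^[t] ⁻¹' A)ᶜ ∩ T^[n] ⁻¹' A = ∅ := by
      ext x
      simp only [Set.mem_inter_iff, Set.mem_compl_iff, Set.mem_iUnion, Set.mem_preimage,
        Set.mem_empty_iff_false, iff_false, not_and]
      intro h1 h2
      exact h1 ⟨n, h2⟩
    rw [this]; simp
  simp only [hz] at hlim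
  have h := tendsto_nhds_unique hlim tendsto_const_nhds
  have hc : μ.real (⋃ t : ℕ, T^[t] ⁻¹' A)ᶜ = 0 := by
    rcases mul_eq_zero.1 h with h | h
    · exact h
    · exact absurd h h0.ne'
  have := probReal_compl_eq_one_sub (μ := μ) hU
  linarith

/-- Near-invariant sets of measure close to that of `D`. -/
lemma exists_near (hmix : Mix μ T) (hT : Measurable T) {D : Set X} (hD : MeasurableSet D)
    (h0 : 0 < μ.real D) (h1 : μ.real D < 1) {ε : ℝ} (hε : 0 < ε) :
    ∃ G : Set X, MeasurableSet G ∧ μ.real (symmDiff G (T ⁻¹' G)) ≤ ε ∧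
      |μ.real G - μ.real D| ≤ ε := by
  obtain ⟨A, hA, hA0, hAε⟩ := exists_small hmix hT hD h0 h1 hε
  -- E t = first entrance at time t
  set E : ℕ → Set X := fun t => T^[t] ⁻¹' A \ ⋃ s ∈ Finset.range t, T^[s] ⁻¹' A with hE
  have hTm : ∀ t : ℕ, MeasurableSet (T^[t] ⁻¹' A) := fun t => (hT.iterate t) hA
  have hEm : ∀ t, MeasurableSet (E t) := fun t =>
    (hTm t).diff (Finset.measurableSet_biUnion _ fun s _ => hTm s)
  have hmemE : ∀ t x, x ∈ E t ↔ (T^[t] x ∈ A ∧ ∀ s < t, T^[s] x ∉ A) := by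
    intro t x
    simp [hE]
  have hEdisj : Pairwise (Function.onFun Disjoint E) := by
    intro s t hst
    rw [Function.onFun, Set.disjoint_left]
    intro x hx hy
    rw [hmemE] at hx hy
    rcases lt_or_gt_of_ne hst with h | h
    · exact hy.2 s h hx.1
    · exact hx.2 t h hy.1
  have hEU : (⋃ t, E t) = ⋃ t : ℕ, T^[t] ⁻¹' A := by
    ext x
    simp only [Set.mem_iUnion, Set.mem_preimage]
    constructor
    · rintro ⟨t, ht⟩
      exact ⟨t, ((hmemE t x).1 ht).1⟩
    · intro h
      classical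
      refine ⟨Nat.find h, (hmemE _ x).2 ⟨Nat.find_spec h, fun s hs => Nat.find_min h hs⟩⟩
  have hEsum : HasSum (fun t => μ.real (E t)) 1 := by
    have h2 : HasSum (fun t => μ.real (E t)) (μ.real (⋃ t, E t)) := by
      have h3 := measure_iUnion hEdisj hEm (μ := μ)
      have h4 : (∑' t, μ (E t)) ≠ ⊤ := by rw [← h3]; exact measure_ne_top _ _
      have h5 : Summable (fun t => (μ (E t)).toReal) := ENNReal.summable_toReal h4
      have h6 : (∑' t, μ (E t)).toReal = ∑' t, (μ (E t)).toReal :=
        ENNReal.tsum_toReal_eq (fun t => measure_ne_top _ _)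
      rw [Measure.real, h3, h6]
      exact h5.hasSum
    rwa [hEU, measure_iUnion_preimage hmix hT hA hA0] at h2
  -- the sets G M
  set G : ℕ → Set X := fun M => ⋃ t, E t ∩ T^[t + M] ⁻¹' D with hG
  have hpm : ∀ t M : ℕ, MeasurableSet (E t ∩ T^[t + M] ⁻¹' D) := fun t M =>
    (hEm t).inter ((hT.iterate (t + M)) hD)
  have hGm : ∀ M, MeasurableSet (G M) := fun M => MeasurableSet.iUnion fun t => hpm t M
  have hGmeas : ∀ M, μ.real (G M) = ∑' t, μ.real (E t ∩ T^[t + M] ⁻¹' D) := by
    intro M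
    have hdis : Pairwise (Function.onFun Disjoint fun t => E t ∩ T^[t + M] ⁻¹' D) := by
      intro s t hst
      exact (hEdisj hst).mono Set.inter_subset_left Set.inter_subset_left
    have h3 := measure_iUnion hdis (fun t => hpm t M) (μ := μ)
    have h6 : (∑' t, μ (E t ∩ T^[t + M] ⁻¹' D)).toReal
        = ∑' t, (μ (E t ∩ T^[t + M] ⁻¹' D)).toReal :=
      ENNReal.tsum_toReal_eq (fun t => measure_ne_top _ _)
    rw [Measure.real, hG]
    simp only
    rw [h3, h6]
    rfl
  have hlim : Tendsto (fun M => μ.real (G M)) atTop (𝓝 (μ.real D)) := by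
    have h7 : Tendsto (fun M => ∑' t, μ.real (E t ∩ T^[t + M] ⁻¹' D)) atTop
        (𝓝 (∑' t, μ.real (E t) * μ.real D)) := by
      apply tendsto_tsum_of_dominated_convergence (bound := fun t => μ.real (E t)) hEsum.summable
      · intro t
        have := (hmix (E t) D (hEm t) hD).comp (tendsto_add_atTop_nat t)
        refine this.congr fun M => ?_
        simp [Function.comp, add_comm]
      · refine Eventually.of_forall fun M t => ?_
        rw [Real.norm_eq_abs, abs_of_nonneg measureReal_nonneg]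
        exact measureReal_mono Set.inter_subset_left
    have h8 : ∑' t, μ.real (E t) * μ.real D = μ.real D := by
      rw [tsum_mul_right, hEsum.tsum_eq, one_mul]
    rw [h8] at h7
    exact h7.congr fun M => (hGmeas M).symm
  have hinv : ∀ M, symmDiff (G M) (T ⁻¹' (G M)) ⊆ A := by
    intro M x hx
    by_contra hxA
    -- x ∈ G M ↔ T x ∈ G M
    have hiff : x ∈ G M ↔ T x ∈ G M := by
      simp only [hG, Set.mem_iUnion, Set.mem_inter_iff, Set.mem_preimage, hmemE]
      constructor
      · rintro ⟨t, ⟨h1, h2⟩, h3⟩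
        cases t with
        | zero => exact absurd h1 hxA
        | succ t =>
          refine ⟨t, ⟨?_, ?_⟩, ?_⟩
          · rw [← Function.iterate_succ_apply]; exact h1
          · intro s hs
            rw [← Function.iterate_succ_apply]
            exact h2 (s + 1) (by omega)
          · rw [← Function.iterate_succ_apply]
            have : (t + M).succ = t + 1 + M := by omega
            rw [this]; exact h3
      · rintro ⟨t, ⟨h1, h2⟩, h3⟩
        refine ⟨t + 1, ⟨?_, ?_⟩, ?_⟩
        · rw [Function.iterate_succ_apply]; exact h1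
        · intro s hs
          cases s with
          | zero => exact hxA
          | succ s =>
            rw [Function.iterate_succ_apply]
            exact h2 s (by omega)
        · have : t + 1 + M = (t + M).succ := by omega
          rw [this, Function.iterate_succ_apply]; exact h3
    rcases hx with ⟨h1, h2⟩ | ⟨h1, h2⟩
    · exact h2 (hiff.1 h1)
    · exact h2 (hiff.2 h1)
  have hev : ∀ᶠ M in atTop, |μ.real (G M) - μ.real D| < ε := by
    have := (Metric.tendsto_nhds.1 hlim) ε hε
    simpa [Real.dist_eq] using this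
  obtain ⟨M, hM⟩ := hev.exists
  exact ⟨G M, hGm M, (measureReal_mono (hinv M)).trans hAε, hM.le⟩

end Pool.Agent.R327.OR
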