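import Pool.Agent.R327.OR.Cross

/-! The inductive construction of the sets `G j`. -/

set_option autoImplicit false
open MeasureTheory Filter Topology

namespace Pool.Agent.R327.OR

noncomputable def seqOf {α : Type*} (F : (n : ℕ) → (Fin n → α) → α) (n : ℕ) : α :=
  F n (fun i : Fin n => seqOf F i.1)
termination_by n
decreasing_by exact i.2

lemma exists_seq_strong {α : Type*} (R : (n : ℕ) → (Fin n → α) → α → Prop)
    (h : ∀ n f, ∃ a, R n f a) : ∃ g : ℕ → α, ∀ n, R n (fun i : Fin n => g i) (g n) := by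
  choose F hF using h
  refine ⟨seqOf F, fun n => ?_⟩
  have h2 : seqOf F n = F n (fun i : Fin n => seqOf F i.1) := by rw [seqOf]
  rw [h2]
  exact hF n _

variable {X : Type*} [MeasurableSpace X] {μ : Measure X} [IsProbabilityMeasure μ] {T : X → X}

lemma diff_le (hT : MeasurePreserving T μ μ) {G : Set X} (hG : MeasurableSet G) (m : ℕ) :
    μ.real (G \ T^[m] ⁻¹' G) ≤ m * μ.real (symmDiff G (T ⁻¹' G)) := by
  induction m with
  | zero => simp
  | succ m ih =>
    have hsub : G \ T^[m + 1] ⁻¹' G ⊆ (G \ T^[m] ⁻¹' G) ∪ (T^[m] ⁻¹' (symmDiff G (T ⁻¹' G))) := by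
      intro x hx
      by_cases h : T^[m] x ∈ G
      · right
        left
        refine ⟨h, ?_⟩
        intro h2
        apply hx.2
        change T^[m + 1] x ∈ G
        rw [Function.iterate_succ_apply']
        exact h2
      · left
        exact ⟨hx.1, h⟩
    have hsm : MeasurableSet (symmDiff G (T ⁻¹' G)) := hG.symmDiff (hT.measurable hG)
    calc μ.real (G \ T^[m + 1] ⁻¹' G)
        ≤ μ.real ((G \ T^[m] ⁻¹' G) ∪ (T^[m] ⁻¹' (symmDiff G (T ⁻¹' G)))) := measureReal_mono hsub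
      _ ≤ μ.real (G \ T^[m] ⁻¹' G) + μ.real (T^[m] ⁻¹' (symmDiff G (T ⁻¹' G))) :=
          measureReal_union_le _ _
      _ = μ.real (G \ T^[m] ⁻¹' G) + μ.real (symmDiff G (T ⁻¹' G)) := by
          congr 1
          rw [Measure.real, Measure.real, (hT.iterate m).measure_preimage hsm.nullMeasurableSet]
      _ ≤ m * μ.real (symmDiff G (T ⁻¹' G)) + μ.real (symmDiff G (T ⁻¹' G)) := by linarith
      _ = ((m + 1 : ℕ) : ℝ) * μ.real (symmDiff G (T ⁻¹' G)) := by push_cast; ring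

lemma cov_self_ge (hT : MeasurePreserving T μ μ) {G : Set X} (hG : MeasurableSet G) (m : ℕ) :
    μ.real G * (1 - μ.real G) - m * μ.real (symmDiff G (T ⁻¹' G)) ≤ cov μ T m G G := by
  have h1 := diff_le hT hG m
  have h2 := measureReal_sdiff_add_inter (μ := μ) (s := G) (t := T^[m] ⁻¹' G)
    ((hT.measurable.iterate m) hG)
  rw [cov]
  nlinarith

lemma cov_self_ge_neg_one (m : ℕ) (G : Set X) : -1 ≤ cov μ T m G G := by
  have h1 : μ.real G ≤ 1 := measureReal_le_one
  have h2 : 0 ≤ μ.real G := measureReal_nonneg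
  have h3 : 0 ≤ μ.real (G ∩ T^[m] ⁻¹' G) := measureReal_nonneg
  rw [cov]
  nlinarith

lemma step (hmix : Mix μ T) (hT : MeasurePreserving T μ μ) {D : Set X} (hD : MeasurableSet D)
    (h0 : 0 < μ.real D) (h1 : μ.real D < 1) (n : ℕ) (f : Fin n → {G : Set X // MeasurableSet G})
    {θ : ℝ} (hθ : 0 < θ) :
    ∃ a : {G : Set X // MeasurableSet G}, ∃ N : ℕ, n ≤ N ∧
      (∀ m, N ≤ m → ∀ l l' : Fin n, |cov μ T m (f l).1 (f l').1| ≤ θ) ∧
      (∀ m, m ≤ N → μ.real D * (1 - μ.real D) / 2 ≤ cov μ T m a.1 a.1) ∧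
      (∀ l : Fin n, ∀ m : ℕ, |cov μ T m (f l).1 a.1| ≤ θ ∧ |cov μ T m a.1 (f l).1| ≤ θ) := by
  set d := μ.real D with hd
  have hv : 0 < d * (1 - d) := mul_pos h0 (by linarith)
  have hev : ∀ᶠ m in atTop, ∀ l l' : Fin n, |cov μ T m (f l).1 (f l').1| ≤ θ := by
    rw [eventually_all]
    intro l
    rw [eventually_all]
    intro l'
    have := hmix (f l).1 (f l').1 (f l).2 (f l').2
    have h2 : Tendsto (fun m => cov μ T m (f l).1 (f l').1) atTop (𝓝 0) := by
      have := this.sub_const (μ.real (f l).1 * μ.real (f l').1)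
      rw [sub_self] at this
      exact this
    have h3 := (Metric.tendsto_nhds.1 h2) θ hθ
    filter_upwards [h3] with m hm
    rw [Real.dist_eq, sub_zero] at hm
    exact hm.le
  obtain ⟨N0, hN0⟩ := eventually_atTop.1 hev
  set N := max N0 n with hN
  choose δ hδ hδ' using fun l : Fin n => cross hmix hT (f l).2 hθ
  have hex : ∃ δ0 : ℝ, (∀ l, δ0 ≤ δ l) ∧ 0 < δ0 ∧ δ0 ≤ d * (1 - d) / (4 * (N + 1)) := by
    have e1 : ∀ᶠ x : ℝ in 𝓝[>] 0, ∀ l, x ≤ δ l := by
      rw [eventually_all]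
      intro l
      filter_upwards [Ioc_mem_nhdsGT (hδ l)] with x hx
      exact hx.2
    have e2 : ∀ᶠ x : ℝ in 𝓝[>] 0, 0 < x ∧ x ≤ d * (1 - d) / (4 * (N + 1)) := by
      filter_upwards [Ioc_mem_nhdsGT (show (0:ℝ) < d * (1 - d) / (4 * (N + 1)) by positivity)]
        with x hx
      exact hx
    obtain ⟨x, hx1, hx2⟩ := (e1.and e2).exists
    exact ⟨x, hx1, hx2.1, hx2.2⟩
  obtain ⟨δ0, hδ0, hδpos, hδ1⟩ := hex
  obtain ⟨G, hG, hG1, hG2⟩ := exists_near hmix hT.measurable hD h0 h1 hδpos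
  refine ⟨⟨G, hG⟩, N, le_max_right _ _, ?_, ?_, ?_⟩
  · intro m hm
    exact hN0 m ((le_max_left _ _).trans hm)
  · intro m hm
    have h5 := cov_self_ge hT hG m
    have h6 : (m : ℝ) * μ.real (symmDiff G (T ⁻¹' G)) ≤ d * (1 - d) / 4 := by
      calc (m : ℝ) * μ.real (symmDiff G (T ⁻¹' G)) ≤ (N + 1 : ℝ) * (d * (1 - d) / (4 * (N + 1))) := by
            apply mul_le_mul _ (hG1.trans hδ1) measureReal_nonneg (by positivity)
            have : (m : ℝ) ≤ N := by exact_mod_cast hm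
            linarith
        _ = d * (1 - d) / 4 := by
            have : (N + 1 : ℝ) ≠ 0 := by positivity
            field_simp
    have h7 : |μ.real G - d| ≤ d * (1 - d) / 4 := by
      calc |μ.real G - d| ≤ δ0 := hG2
        _ ≤ d * (1 - d) / (4 * (N + 1)) := hδ1
        _ ≤ d * (1 - d) / 4 := by
            apply div_le_div_of_nonneg_left hv.le (by norm_num)
            have : (0:ℝ) ≤ N := by positivity
            linarith
    have h8 : d * (1 - d) - d * (1 - d) / 4 ≤ μ.real G * (1 - μ.real G) := by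
      set g := μ.real G with hg
      have hg0 : 0 ≤ g := measureReal_nonneg
      have hg1 : g ≤ 1 := measureReal_le_one
      have h9 : g * (1 - g) - d * (1 - d) = (g - d) * (1 - g - d) := by ring
      have h10 : |(g - d) * (1 - g - d)| ≤ d * (1 - d) / 4 := by
        rw [abs_mul]
        calc |g - d| * |1 - g - d| ≤ (d * (1 - d) / 4) * 1 := by
              apply mul_le_mul h7 _ (abs_nonneg _) (by positivity)
              rw [abs_le]; constructor <;> linarith
          _ = d * (1 - d) / 4 := by ring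
      have h11 := (abs_le.1 h10).1
      linarith
    show d * (1 - d) / 2 ≤ cov μ T m G G
    linarith
  · intro l m
    exact hδ' l G hG (hG1.trans (hδ0 l)) m

/-- The main sequence of sets. -/
lemma exists_sets (hmix : Mix μ T) (hT : MeasurePreserving T μ μ) {D : Set X}
    (hD : MeasurableSet D) (h0 : 0 < μ.real D) (h1 : μ.real D < 1)
    (θ : ℕ → ℝ) (hθ : ∀ n, 0 < θ n) (hθanti : Antitone θ) :
    ∃ G : ℕ → Set X, (∀ j, MeasurableSet (G j)) ∧ ∀ n : ℕ, ∃ i : ℕ,
      (∀ j l, j ≠ l → |cov μ T n (G j) (G l)| ≤ θ i) ∧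
      (∀ j, j < i → |cov μ T n (G j) (G j)| ≤ θ i) ∧
      (∀ j, i < j → μ.real D * (1 - μ.real D) / 2 ≤ cov μ T n (G j) (G j)) := by
  obtain ⟨g, hg⟩ := exists_seq_strong
    (fun (n : ℕ) (f : Fin n → {G : Set X // MeasurableSet G}) (a : {G : Set X // MeasurableSet G}) =>
      ∃ N : ℕ, n ≤ N ∧
      (∀ m, N ≤ m → ∀ l l' : Fin n, |cov μ T m (f l).1 (f l').1| ≤ θ n) ∧
      (∀ m, m ≤ N → μ.real D * (1 - μ.real D) / 2 ≤ cov μ T m a.1 a.1) ∧
      (∀ l : Fin n, ∀ m : ℕ, |cov μ T m (f l).1 a.1| ≤ θ n ∧ |cov μ T m a.1 (f l).1| ≤ θ n))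
    (fun n f => step hmix hT hD h0 h1 n f (hθ n))
  choose N hN hN1 hN2 hN3 using hg
  refine ⟨fun j => (g j).1, fun j => (g j).2, fun n => ?_⟩
  have hex : ∃ i, ∀ j, i < j → n ≤ N j := ⟨n, fun j hj => hj.le.trans (hN j)⟩
  classical
  set i := Nat.find hex with hi
  have hi1 : ∀ j, i < j → n ≤ N j := Nat.find_spec hex
  have hi2 : 0 < i → N i < n := by
    intro hpos
    by_contra hcon
    push Not at hcon
    have : ∀ j, i - 1 < j → n ≤ N j := by
      intro j hj
      rcases Nat.lt_or_ge i j with h | h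
      · exact hi1 j h
      · have : j = i := by omega
        rw [this]; exact hcon
    have h3 := Nat.find_min' hex this
    omega
  refine ⟨i, ?_, ?_, ?_⟩
  · intro j l hjl
    rcases lt_or_ge (max j l) i with hmax | hmax
    · have hjl' := max_lt_iff.1 hmax
      exact hN1 i n (hi2 (by omega)).le ⟨j, hjl'.1⟩ ⟨l, hjl'.2⟩
    · rcases lt_or_gt_of_ne hjl with h | h
      · have h5 : i ≤ l := by rw [max_eq_right h.le] at hmax; exact hmax
        exact ((hN3 l ⟨j, h⟩ n).1).trans (hθanti h5)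
      · have h5 : i ≤ j := by rw [max_eq_left h.le] at hmax; exact hmax
        exact ((hN3 j ⟨l, h⟩ n).2).trans (hθanti h5)
  · intro j hj
    exact hN1 i n (hi2 (by omega)).le ⟨j, hj⟩ ⟨j, hj⟩
  · intro j hj
    exact hN2 j n (hi1 j hj)

end Pool.Agent.R327.OR
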